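import Mathlib
import Pool.Agent.V1190.BeurFin

namespace Pool.Agent.Results.MP_f46ce3_an.BeurlingSets

/-!
Interpolating families of pairs in a metric space always carry Beurling sets.

The finite case is the fractional packing theorem of `Pool.Agent.V1190.BeurFin` (a metric form of
the Edmonds-Johnson duality for joins and cuts): the difference quotients at the pairs are made
negative edges of length `d(x_i, y_i)` in the complete graph on the points with edge lengths
`K d(u, v)`; interpolation of all signs says that there is no negative cycle, and the cuts packed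
by duality, each of which separates exactly one of the pairs, add up to the Beurling functions.
The general case follows by compactness, and finiteness of the constant by the open mapping
theorem.
-/

universe u v

/-- `g` belongs to `Lip_0(X)`, the base point being `o`. -/
def IsLip0 {X : Type u} [MetricSpace X] (o : X) (g : X → ℝ) : Prop :=
  g o = 0 ∧ ∃ K : ℝ, ∀ x y, |g x - g y| ≤ K * dist x y

/-- The difference quotient of `g` at the pair `(x, y)`. -/
noncomputable def DQ {X : Type u} [MetricSpace X] (g : X → ℝ) (x y : X) : ℝ :=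
  (g x - g y) / dist x y

/-- The map `T` sending `g` to its difference quotients at the pairs is onto `ℓ_∞(I)`. -/
def IsInterpolating {X : Type u} [MetricSpace X] {I : Type v} (o : X) (p : I → X × X) : Prop :=
  ∀ α : I → ℝ, (∃ C : ℝ, ∀ i, |α i| ≤ C) →
    ∃ g : X → ℝ, IsLip0 o g ∧ ∀ i, DQ g (p i).1 (p i).2 = α i

/-- The numbers `K ≥ 1` such that every element of the closed unit ball of `ℓ_∞(I)` has a preimage
in `Lip_0(X)` of norm (smallest Lipschitz constant) at most `K`. -/
def ConstSet {X : Type u} [MetricSpace X] {I : Type v} (o : X) (p : I → X × X) : Set ℝ :=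
  {K : ℝ | 1 ≤ K ∧ ∀ α : I → ℝ, (∀ i, |α i| ≤ 1) →
    ∃ g : X → ℝ, g o = 0 ∧ (∀ x y, |g x - g y| ≤ K * dist x y) ∧
      ∀ i, DQ g (p i).1 (p i).2 = α i}

/-- The interpolation constant of the family. -/
noncomputable def interpConst {X : Type u} [MetricSpace X] {I : Type v} (o : X) (p : I → X × X) :
    ℝ :=
  sInf (ConstSet o p)

open Classical in
/-- `f` is a Beurling set for the family `p` with the constant `M`. -/
def IsBeurling {X : Type u} [MetricSpace X] {I : Type v} (o : X) (p : I → X × X) (M : ℝ)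
    (f : I → X → ℝ) : Prop :=
  (∀ i, IsLip0 o (f i)) ∧
    (∀ i j, DQ (f i) (p j).1 (p j).2 = if i = j then 1 else 0) ∧
      ∀ x y, x ≠ y → Summable (fun i => |DQ (f i) x y|) ∧ ∑' i, |DQ (f i) x y| ≤ M

section OpenMapping

variable {X : Type u} [MetricSpace X] {I : Type v}

/-- cocycles: difference quotients as a closed subspace of `ℓ_∞` -/
def Coc (X : Type u) [MetricSpace X] : Submodule ℝ (lp (fun _ : X × X => ℝ) ⊤) where
  carrier := {h | ∀ x y w : X, (h : X × X → ℝ) (x, y) * dist x y +
    (h : X × X → ℝ) (y, w) * dist y w = (h : X × X → ℝ) (x, w) * dist x w}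
  add_mem' := by
    intro f g hf hg x y w
    have h1 := hf x y w
    have h2 := hg x y w
    simp only [lp.coeFn_add, Pi.add_apply]
    linarith
  zero_mem' := by
    intro x y w
    simp
  smul_mem' := by
    intro c f hf x y w
    have h1 := hf x y w
    simp only [lp.coeFn_smul, Pi.smul_apply, smul_eq_mul]
    linear_combination c * h1

lemma coc_closed : IsClosed (Coc X : Set (lp (fun _ : X × X => ℝ) ⊤)) := by
  have hc : ∀ q : X × X, Continuous fun h : lp (fun _ : X × X => ℝ) ⊤ => (h : X × X → ℝ) q := by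
    intro q
    exact (lp.evalCLM ℝ (fun _ : X × X => ℝ) ⊤ q).continuous
  have : (Coc X : Set (lp (fun _ : X × X => ℝ) ⊤)) = ⋂ x : X, ⋂ y : X, ⋂ w : X,
      {h : lp (fun _ : X × X => ℝ) ⊤ | (h : X × X → ℝ) (x, y) * dist x y +
        (h : X × X → ℝ) (y, w) * dist y w = (h : X × X → ℝ) (x, w) * dist x w} := by
    ext h
    simp only [Set.mem_iInter]
    rfl
  rw [this]
  refine isClosed_iInter fun x => isClosed_iInter fun y => isClosed_iInter fun w => ?_
  exact isClosed_eq (((hc _).mul continuous_const).add ((hc _).mul continuous_const))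
    ((hc _).mul continuous_const)

instance coc_complete : CompleteSpace (Coc X) := coc_closed.completeSpace_coe

/-- restriction of a cocycle to the pairs of the family -/
noncomputable def TT (p : I → X × X) : Coc X →L[ℝ] lp (fun _ : I => ℝ) ⊤ :=
  LinearMap.mkContinuous
    { toFun := fun h => ⟨fun i => (h.1 : X × X → ℝ) (p i), by
        apply memℓp_infty
        refine ⟨‖h.1‖, ?_⟩
        rintro _ ⟨i, rfl⟩
        exact lp.norm_apply_le_norm (by simp) h.1 (p i)⟩
      map_add' := by
        intro f g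
        ext i
        rfl
      map_smul' := by
        intro c f
        ext i
        rfl } 1 (by
    intro h
    rw [one_mul]
    refine lp.norm_le_of_forall_le (norm_nonneg _) ?_
    intro i
    exact lp.norm_apply_le_norm (by simp) h.1 (p i))

lemma TT_apply (p : I → X × X) (h : Coc X) (i : I) :
    (TT p h : I → ℝ) i = (h.1 : X × X → ℝ) (p i) := rfl

lemma TT_surj {o : X} {p : I → X × X} (hT : IsInterpolating o p) :
    Function.Surjective (TT p) := by
  intro α
  obtain ⟨g, ⟨hg0, K, hK⟩, hg⟩ := hT (fun i => (α : I → ℝ) i)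
    ⟨‖α‖, fun i => lp.norm_apply_le_norm (by simp) α i⟩
  have hb : ∀ q : X × X, ‖DQ g q.1 q.2‖ ≤ max K 0 := by
    intro q
    unfold DQ
    rcases eq_or_ne q.1 q.2 with h | h
    · rw [h]; simp
    · have hd : 0 < dist q.1 q.2 := dist_pos.mpr h
      rw [norm_div, Real.norm_eq_abs, Real.norm_eq_abs, abs_of_pos hd, div_le_iff₀ hd]
      refine (hK _ _).trans ?_
      exact mul_le_mul_of_nonneg_right (le_max_left _ _) hd.le
  have hmul : ∀ x y : X, DQ g x y * dist x y = g x - g y := by
    intro x y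
    unfold DQ
    rcases eq_or_ne x y with h | h
    · rw [h]; simp
    · exact div_mul_cancel₀ _ (dist_pos.mpr h).ne'
  let H : lp (fun _ : X × X => ℝ) ⊤ := ⟨fun q => DQ g q.1 q.2, by
    apply memℓp_infty
    refine ⟨max K 0, ?_⟩
    rintro _ ⟨q, rfl⟩
    exact hb q⟩
  have hH : H ∈ Coc X := by
    intro x y w
    change DQ g x y * dist x y + DQ g y w * dist y w = DQ g x w * dist x w
    rw [hmul, hmul, hmul]
    ring
  refine ⟨⟨H, hH⟩, ?_⟩
  ext i
  rw [TT_apply]
  exact hg i

lemma constSet_nonempty {o : X} {p : I → X × X} (hp : ∀ i, (p i).1 ≠ (p i).2)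
    (hT : IsInterpolating o p) :
    (ConstSet o p).Nonempty := by
  obtain ⟨C, hC0, hC⟩ := (TT p).exists_preimage_norm_le (TT_surj hT)
  refine ⟨max C 1, le_max_right _ _, ?_⟩
  intro α hα
  let A : lp (fun _ : I => ℝ) ⊤ := ⟨α, by
    apply memℓp_infty
    refine ⟨1, ?_⟩
    rintro _ ⟨i, rfl⟩
    exact hα i⟩
  have hA : ‖A‖ ≤ 1 := lp.norm_le_of_forall_le zero_le_one hα
  obtain ⟨h, hh, hn⟩ := hC A
  have hn' : ‖h.1‖ ≤ max C 1 := by
    calc ‖h.1‖ = ‖h‖ := rfl
      _ ≤ C * ‖A‖ := hn
      _ ≤ C * 1 := mul_le_mul_of_nonneg_left hA hC0.le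
      _ ≤ max C 1 := by rw [mul_one]; exact le_max_left _ _
  have hcoc := h.2
  have hg : ∀ x y : X, (h.1 : X × X → ℝ) (x, o) * dist x o - (h.1 : X × X → ℝ) (y, o) * dist y o =
      (h.1 : X × X → ℝ) (x, y) * dist x y := by
    intro x y
    have := hcoc x y o
    linarith
  refine ⟨fun x => (h.1 : X × X → ℝ) (x, o) * dist x o, by simp, ?_, ?_⟩
  · intro x y
    simp only
    rw [hg, abs_mul, abs_of_nonneg dist_nonneg]
    refine mul_le_mul_of_nonneg_right ?_ dist_nonneg
    exact (lp.norm_apply_le_norm (by simp) h.1 (x, y)).trans hn'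
  · intro i
    have h1 : (TT p h : I → ℝ) i = α i := by rw [hh]
    rw [TT_apply] at h1
    unfold DQ
    rw [hg, mul_div_cancel_right₀ _ (dist_pos.mpr (hp i)).ne']
    exact h1

end OpenMapping

section Main

open Pool.Agent.V1190.BeurFin

variable {X : Type u} [MetricSpace X] {I : Type v}

/-- approximate Beurling sets on finite pieces -/
def Box (o : X) (I : Type v) (K0 : ℝ) : Set (I → X → ℝ) :=
  Set.pi Set.univ fun _ => Set.pi Set.univ fun x => Set.Icc (-(K0 * dist x o)) (K0 * dist x o)

lemma box_compact (o : X) (K0 : ℝ) : IsCompact (Box o I K0) :=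
  isCompact_univ_pi fun _ => isCompact_univ_pi fun _ => isCompact_Icc

lemma finite_piece (o : X) (p : I → X × X) {K : ℝ} (hK : K ∈ ConstSet o p) (s : Finset X)
    (J : Finset I) (hp : ∀ i, (p i).1 ≠ (p i).2) :
    ∃ f ∈ Box o I K, (∀ i ∈ J, ∀ j ∈ J, i ≠ j → f i (p j).1 - f i (p j).2 = 0) ∧
      (∀ i ∈ J, f i (p i).1 - f i (p i).2 = dist (p i).1 (p i).2) ∧
      ∀ u ∈ s, ∀ v ∈ s, ∑ i ∈ J, |f i u - f i v| ≤ K * dist u v := by
  classical
  obtain ⟨hK1, hK2⟩ := hK
  set V : Finset X := s ∪ {o} ∪ J.image (fun i => (p i).1) ∪ J.image (fun i => (p i).2) with hV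
  have hsV : ∀ u ∈ s, u ∈ V := fun u hu => by simp [hV, hu]
  have hoV : o ∈ V := by simp [hV]
  have h1V : ∀ i ∈ J, (p i).1 ∈ V := fun i hi => by
    rw [hV]
    simp only [Finset.mem_union, Finset.mem_image]
    exact Or.inl (Or.inr ⟨i, hi, rfl⟩)
  have h2V : ∀ i ∈ J, (p i).2 ∈ V := fun i hi => by
    rw [hV]
    simp only [Finset.mem_union, Finset.mem_image]
    exact Or.inr ⟨i, hi, rfl⟩
  let a : {i // i ∈ J} × Bool → {x // x ∈ V} := fun q =>
    if q.2 then ⟨(p q.1).1, h1V _ q.1.2⟩ else ⟨(p q.1).2, h2V _ q.1.2⟩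
  obtain ⟨φ, h0, h1, h2, h3⟩ := finite_beurling a (fun i => dist (p i).1 (p i).2)
    (fun i => dist_nonneg) (fun u v => K * dist (u : X) (v : X)) ⟨o, hoV⟩ (by
      intro e
      obtain ⟨g, -, hg1, hg2⟩ := hK2 (fun i => if h : i ∈ J then (if e ⟨i, h⟩ then 1 else -1) else 0)
        (by
          intro i
          split_ifs <;> simp)
      refine ⟨fun x => g x, fun u v => hg1 u v, fun i => ?_⟩
      have hgi := hg2 i
      have hd : 0 < dist (p i).1 (p i).2 := dist_pos.mpr (hp i)
      rw [dif_pos i.2] at hgi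
      unfold DQ at hgi
      rw [div_eq_iff hd.ne'] at hgi
      have hei : (⟨(i : I), i.2⟩ : {i // i ∈ J}) = i := rfl
      rw [hei] at hgi
      cases h : e i with
      | true =>
        simp only [h, if_true, a, fl] at hgi ⊢
        simpa using hgi
      | false =>
        simp only [h, a, fl] at hgi ⊢
        simp only [Bool.false_eq_true, if_false, Bool.not_false, if_true] at hgi ⊢
        linarith)
  refine ⟨fun i x => if h : i ∈ J ∧ x ∈ V then φ ⟨i, h.1⟩ ⟨x, h.2⟩ else 0, ?_, ?_, ?_, ?_⟩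
  · intro i _ x _
    simp only
    split_ifs with h
    · have k1 : |φ ⟨i, h.1⟩ ⟨x, h.2⟩ - φ ⟨i, h.1⟩ ⟨o, hoV⟩| ≤ K * dist x o :=
        (Finset.single_le_sum (f := fun i => |φ i ⟨x, h.2⟩ - φ i ⟨o, hoV⟩|)
          (fun _ _ => abs_nonneg _) (Finset.mem_univ _)).trans (h3 ⟨x, h.2⟩ ⟨o, hoV⟩)
      rw [h0, sub_zero] at k1
      exact abs_le.mp k1
    · have : 0 ≤ K * dist x o := mul_nonneg (by linarith) dist_nonneg
      exact ⟨by linarith, this⟩
  · intro i hi j hj hij
    simp only
    rw [dif_pos ⟨hi, h1V j hj⟩, dif_pos ⟨hi, h2V j hj⟩]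
    have := h1 ⟨i, hi⟩ ⟨j, hj⟩ (by simpa using hij)
    simpa [a] using this
  · intro i hi
    simp only
    rw [dif_pos ⟨hi, h1V i hi⟩, dif_pos ⟨hi, h2V i hi⟩]
    have := h2 ⟨i, hi⟩
    simpa [a] using this
  · intro u hu v hv
    have hk := h3 ⟨u, hsV u hu⟩ ⟨v, hsV v hv⟩
    rw [← Finset.sum_coe_sort J]
    refine le_trans (le_of_eq ?_) hk
    refine Finset.sum_congr rfl fun i _ => ?_
    beta_reduce
    rw [dif_pos ⟨i.2, hsV u hu⟩, dif_pos ⟨i.2, hsV v hv⟩]

/-- closed pieces -/
def Piece (o : X) (p : I → X × X) (K0 : ℝ) (q : Finset X × Finset I × ConstSet o p) :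
    Set (I → X → ℝ) :=
  Box o I K0 ∩ {f | (∀ i ∈ q.2.1, ∀ j ∈ q.2.1, i ≠ j → f i (p j).1 - f i (p j).2 = 0) ∧
      (∀ i ∈ q.2.1, f i (p i).1 - f i (p i).2 = dist (p i).1 (p i).2) ∧
      ∀ u ∈ q.1, ∀ v ∈ q.1, ∑ i ∈ q.2.1, |f i u - f i v| ≤ q.2.2.1 * dist u v}

lemma piece_closed (o : X) (p : I → X × X) (K0 : ℝ) (q : Finset X × Finset I × ConstSet o p) :
    IsClosed (Piece o p K0 q) := by
  unfold Piece
  refine (box_compact o K0).isClosed.inter ?_
  simp only [Set.ofPred_and, Set.ofPred_forall]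
  refine IsClosed.inter (isClosed_iInter fun i => isClosed_iInter fun _ => isClosed_iInter fun j =>
    isClosed_iInter fun _ => isClosed_iInter fun _ =>
      isClosed_eq (by fun_prop) (by fun_prop)) ?_
  refine IsClosed.inter (isClosed_iInter fun i => isClosed_iInter fun _ =>
      isClosed_eq (by fun_prop) (by fun_prop)) ?_
  exact isClosed_iInter fun i => isClosed_iInter fun _ => isClosed_iInter fun j =>
    isClosed_iInter fun _ => isClosed_le (by fun_prop) (by fun_prop)

lemma min_mem {o : X} {p : I → X × X} {K K' : ℝ} (h : K ∈ ConstSet o p) (h' : K' ∈ ConstSet o p) :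
    min K K' ∈ ConstSet o p := by
  rcases min_choice K K' with h1 | h1 <;> rw [h1] <;> assumption

lemma piece_nonempty (o : X) (p : I → X × X) (hp : ∀ i, (p i).1 ≠ (p i).2) {K0 : ℝ}
    (hK0 : K0 ∈ ConstSet o p) (q : Finset X × Finset I × ConstSet o p) :
    (Piece o p K0 q).Nonempty := by
  obtain ⟨s, J, K, hK⟩ := q
  obtain ⟨f, hf, h1, h2, h3⟩ := finite_piece o p (min_mem hK0 hK) s J hp
  refine ⟨f, ?_, h1, h2, ?_⟩
  · intro i hi x hx
    have k1 := hf i hi x hx
    have k2 : min K0 K * dist x o ≤ K0 * dist x o :=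
      mul_le_mul_of_nonneg_right (min_le_left _ _) dist_nonneg
    exact ⟨by linarith [k1.1], by linarith [k1.2]⟩
  · intro u hu v hv
    exact (h3 u hu v hv).trans (mul_le_mul_of_nonneg_right (min_le_right _ _) dist_nonneg)

lemma piece_directed (o : X) (p : I → X × X) (K0 : ℝ) :
    Directed (· ⊇ ·) (Piece (I := I) o p K0) := by
  classical
  rintro ⟨s, J, K, hK⟩ ⟨s', J', K', hK'⟩
  have key : ∀ (t : Finset X) (L : Finset I) (M : ℝ) (hM : M ∈ ConstSet o p),
      t ⊆ s ∪ s' → L ⊆ J ∪ J' → min K K' ≤ M →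
      Piece o p K0 (s ∪ s', J ∪ J', ⟨min K K', min_mem hK hK'⟩) ⊆
        Piece o p K0 (t, L, ⟨M, hM⟩) := by
    intro t L M hM ht hL hKM f hf
    obtain ⟨hb, h1, h2, h3⟩ := hf
    refine ⟨hb, fun i hi j hj => h1 i (hL hi) j (hL hj), fun i hi => h2 i (hL hi), ?_⟩
    intro u hu v hv
    have k1 := h3 u (ht hu) v (ht hv)
    have k2 : ∑ i ∈ L, |f i u - f i v| ≤ ∑ i ∈ J ∪ J', |f i u - f i v| :=
      Finset.sum_le_sum_of_subset_of_nonneg hL fun _ _ _ => abs_nonneg _
    have k3 : min K K' * dist u v ≤ M * dist u v :=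
      mul_le_mul_of_nonneg_right hKM dist_nonneg
    exact k2.trans (k1.trans k3)
  exact ⟨(s ∪ s', J ∪ J', ⟨min K K', min_mem hK hK'⟩),
    key s J K hK Finset.subset_union_left Finset.subset_union_left (min_le_left _ _),
    key s' J' K' hK' Finset.subset_union_right Finset.subset_union_right (min_le_right _ _)⟩

/-- every interpolating family has a Beurling set -/
theorem exists_beurling (o : X) (p : I → X × X) (hp : ∀ i, (p i).1 ≠ (p i).2)
    (hne : (ConstSet o p).Nonempty) : ∃ f : I → X → ℝ, IsBeurling o p (interpConst o p) f := by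
  classical
  obtain ⟨K0, hK0⟩ := hne
  have : Nonempty (Finset X × Finset I × ConstSet o p) := ⟨(∅, ∅, ⟨K0, hK0⟩)⟩
  obtain ⟨f, hf⟩ := IsCompact.nonempty_iInter_of_directed_nonempty_isCompact_isClosed
    (Piece (I := I) o p K0) (piece_directed o p K0) (piece_nonempty o p hp hK0)
    (fun q => (box_compact o K0).of_isClosed_subset (piece_closed o p K0 q)
      Set.inter_subset_left) (piece_closed o p K0)
  rw [Set.mem_iInter] at hf
  have hd : ∀ i, 0 < dist (p i).1 (p i).2 := fun i => dist_pos.mpr (hp i)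
  have hsum : ∀ (J : Finset I) (u v : X),
      ∑ i ∈ J, |f i u - f i v| ≤ interpConst o p * dist u v := by
    intro J u v
    have h1 : ∀ K ∈ ConstSet o p, ∑ i ∈ J, |f i u - f i v| ≤ K * dist u v := by
      intro K hK
      obtain ⟨-, -, -, h⟩ := hf ({u, v}, J, ⟨K, hK⟩)
      exact h u (by simp) v (by simp)
    rcases eq_or_ne u v with h | h
    · subst h
      simp
    · have hduv : 0 < dist u v := dist_pos.mpr h
      rw [← div_le_iff₀ hduv]
      refine le_csInf ⟨K0, hK0⟩ ?_
      intro K hK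
      rw [div_le_iff₀ hduv]
      exact h1 K hK
  have h0 : ∀ i, f i o = 0 := by
    intro i
    obtain ⟨hb, -⟩ := hf (∅, ∅, ⟨K0, hK0⟩)
    have := hb i (Set.mem_univ _) o (Set.mem_univ _)
    beta_reduce at this
    rw [dist_self, mul_zero, neg_zero, Set.Icc_self] at this
    exact this
  refine ⟨f, ?_, ?_, ?_⟩
  · intro i
    refine ⟨h0 i, interpConst o p, fun x y => ?_⟩
    simpa using hsum {i} x y
  · intro i j
    obtain ⟨-, h1, h2, -⟩ := hf (∅, {i, j}, ⟨K0, hK0⟩)
    unfold DQ
    by_cases hij : i = j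
    · subst hij
      rw [if_pos rfl, h2 i (by simp), div_self (hd i).ne']
    · rw [if_neg hij, h1 i (by simp) j (by simp) hij, zero_div]
  · intro x y hxy
    have hdxy : 0 < dist x y := dist_pos.mpr hxy
    have hle : ∀ J : Finset I, ∑ i ∈ J, |DQ (f i) x y| ≤ interpConst o p := by
      intro J
      have h1 := hsum J x y
      unfold DQ
      simp_rw [abs_div, abs_of_pos hdxy]
      rw [← Finset.sum_div, div_le_iff₀ hdxy]
      exact h1
    have hs : Summable (fun i => |DQ (f i) x y|) :=
      summable_of_sum_le (fun _ => abs_nonneg _) hle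
    exact ⟨hs, hs.tsum_le_of_sum_le hle⟩

end Main

/-- **Positive answer to the question.** For every metric space with a base point `o` and every
Lipschitz interpolating family of pairs of distinct points (indexed by any nonempty set), the
interpolation constant is finite and a Beurling set with exactly this constant exists. -/
theorem result : ∀ (X : Type u) [MetricSpace X] (o : X) (I : Type v) [Nonempty I]
    (p : I → X × X), (∀ i, (p i).1 ≠ (p i).2) → IsInterpolating o p →
      (ConstSet o p).Nonempty ∧ ∃ f : I → X → ℝ, IsBeurling o p (interpConst o p) f := by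
  intro X _ o I _ p hp hT
  have h := constSet_nonempty hp hT
  exact ⟨h, exists_beurling o p hp h⟩

end Pool.Agent.Results.MP_f46ce3_an.BeurlingSets
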